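import Pool.Agent.helper88.RQ2.Spec

/-!
# Row `rq:EUN` of Pool/Agent/helper88/RQ2/Spec.lean: the union of two decompositions
-/

open Set Matroid RadonMin

namespace RadonQ2

theorem EUN_proof : EUN_stmt := by
  intro V _ _ _ K X A hAX hr hA hB
  obtain ⟨P, hP1, hP2, hP3, hP4⟩ := hA
  obtain ⟨Q, hQ1, hQ2, hQ3, hQ4⟩ := hB
  have hsubA : ∀ B ∈ P, ∀ x ∈ B, x ∈ A := fun B hB x hx => (hP3 x).2 ⟨B, hB, hx⟩
  have hsubB : ∀ B ∈ Q, ∀ x ∈ B, x ∈ X \ A := fun B hB x hx => (hQ3 x).2 ⟨B, hB, hx⟩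
  have hcross : ∀ B ∈ P, ∀ C ∈ Q, Disjoint B C := by
    intro B hB C hC
    rw [Finset.disjoint_left]
    intro x hx hx'
    exact (Finset.mem_sdiff.1 (hsubB C hC x hx')).2 (hsubA B hB x hx)
  have hdis : Disjoint P Q := by
    rw [Finset.disjoint_left]
    intro B hB hB'
    obtain ⟨x, hx⟩ := (hP1 B hB).1
    exact (Finset.mem_sdiff.1 (hsubB B hB' x hx)).2 (hsubA B hB x hx)
  refine ⟨P ∪ Q, ?_, ?_, ?_, ?_⟩
  · intro B hB
    rcases Finset.mem_union.1 hB with h | h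
    · exact hP1 B h
    · exact hQ1 B h
  · intro B hB C hC hBC
    rcases Finset.mem_union.1 (Finset.mem_coe.1 hB) with h | h <;>
      rcases Finset.mem_union.1 (Finset.mem_coe.1 hC) with h' | h'
    · exact hP2 (Finset.mem_coe.2 h) (Finset.mem_coe.2 h') hBC
    · exact hcross B h C h'
    · exact (hcross C h' B h).symm
    · exact hQ2 (Finset.mem_coe.2 h) (Finset.mem_coe.2 h') hBC
  · intro x
    constructor
    · intro hx
      by_cases hxA : x ∈ A
      · obtain ⟨B, hB, hxB⟩ := (hP3 x).1 hxA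
        exact ⟨B, Finset.mem_union_left _ hB, hxB⟩
      · obtain ⟨B, hB, hxB⟩ := (hQ3 x).1 (Finset.mem_sdiff.2 ⟨hx, hxA⟩)
        exact ⟨B, Finset.mem_union_right _ hB, hxB⟩
    · rintro ⟨B, hB, hxB⟩
      rcases Finset.mem_union.1 hB with h | h
      · exact hAX (hsubA B h x hxB)
      · exact (Finset.mem_sdiff.1 (hsubB B h x hxB)).1
  · rw [Finset.sum_union hdis, hP4, hQ4, hr]

end RadonQ2
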